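import Mathlib

open Set

namespace Pool.Agent.Results.MP_19fe04_lc.TwoSystems

/-- Steiner `k`-system -/
def Steiner {Ω : Type} (k : ℕ) (B : Set (Set Ω)) : Prop :=
  (∀ b ∈ B, ((k + 1 : ℕ) : ℕ∞) ≤ b.encard) ∧ B.Nontrivial ∧
    ∀ s : Finset Ω, s.card = k → ∃! b, b ∈ B ∧ (s : Set Ω) ⊆ b

/-- the permutation `g` maps the family `B` onto itself -/
def Pres {Ω : Type} (g : Equiv.Perm Ω) (B : Set (Set Ω)) : Prop := (fun b => g '' b) '' B = B

section
variable {K : Type} [Field K]

def line (a v : K × K) : Set (K × K) := range fun t : K => a + t • v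

def Lines (K : Type) [Field K] : Set (Set (K × K)) := {L | ∃ a v, v ≠ 0 ∧ L = line a v}

def Quads (K : Type) [Field K] : Set (Set (K × K)) :=
  {Q | ∃ a b c, a ≠ b ∧ a ≠ c ∧ b ≠ c ∧ Q = {a, b, c, a + b + c}}

def det (u w : K × K) : K := u.1 * w.2 - u.2 * w.1

lemma mem_line {a v p : K × K} (hv : v ≠ 0) : p ∈ line a v ↔ det (p - a) v = 0 := by
  constructor
  · rintro ⟨t, rfl⟩
    simp only [det, Prod.fst_sub, Prod.fst_add, Prod.smul_fst, smul_eq_mul, Prod.snd_sub,
      Prod.snd_add, Prod.smul_snd]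
    ring
  · intro h
    simp only [det, Prod.fst_sub, Prod.snd_sub] at h
    by_cases h1 : v.1 = 0
    · have h2 : v.2 ≠ 0 := fun h2 => hv (Prod.ext h1 h2)
      refine ⟨(p.2 - a.2) / v.2, Prod.ext ?_ ?_⟩ <;> simp only [Prod.fst_add, Prod.smul_fst,
        smul_eq_mul, Prod.snd_add, Prod.smul_snd] <;> field_simp
      · linear_combination -h
      · ring
    · refine ⟨(p.1 - a.1) / v.1, Prod.ext ?_ ?_⟩ <;> simp only [Prod.fst_add, Prod.smul_fst,
        smul_eq_mul, Prod.snd_add, Prod.smul_snd] <;> field_simp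
      · ring
      · linear_combination h

lemma line_eq {a v p q : K × K} (hpq : p ≠ q) (hp : p ∈ line a v) (hq : q ∈ line a v) :
    line a v = line p (q - p) := by
  obtain ⟨s, rfl⟩ := hp
  obtain ⟨t, rfl⟩ := hq
  have h : t - s ≠ 0 := fun h => hpq (by rw [sub_eq_zero.1 h])
  ext x
  constructor
  · rintro ⟨r, rfl⟩
    refine ⟨(r - s) / (t - s), ?_⟩
    simp only [add_sub_add_left_eq_sub, ← sub_smul, smul_smul, div_mul_cancel₀ _ h, add_assoc,
      ← add_smul, add_sub_cancel]
  · rintro ⟨r, rfl⟩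
    exact ⟨s + r * (t - s), by
      simp only [add_sub_add_left_eq_sub, ← sub_smul, smul_smul, add_assoc, ← add_smul]⟩

lemma left_mem (p q : K × K) : p ∈ line p (q - p) := ⟨0, by simp⟩
lemma right_mem (p q : K × K) : q ∈ line p (q - p) := ⟨1, by simp⟩

lemma steiner_lines [Infinite K] : Steiner 2 (Lines K) := by
  classical
  refine ⟨?_, ⟨line 0 (1, 0), ⟨_, _, by simp, rfl⟩, line 0 (0, 1), ⟨_, _, by simp, rfl⟩, ?_⟩, ?_⟩
  · rintro _ ⟨a, v, hv, rfl⟩
    rw [Set.Infinite.encard_eq (s := line a v) (infinite_range_of_injective fun s t h =>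
      smul_left_injective K hv (add_left_cancel h))]
    exact le_top
  · intro h
    have : ((1, 0) : K × K) ∈ line 0 (0, 1) := h ▸ ⟨1, by simp⟩
    rw [mem_line (by simp)] at this
    simp [det] at this
  · intro s hs
    obtain ⟨p, q, hpq, rfl⟩ := Finset.card_eq_two.1 hs
    refine ⟨line p (q - p), ⟨⟨_, _, sub_ne_zero.2 hpq.symm, rfl⟩, ?_⟩, ?_⟩
    · simp only [Finset.coe_insert, Finset.coe_singleton]
      exact insert_subset (left_mem p q) (singleton_subset_iff.2 (right_mem p q))
    · rintro _ ⟨⟨a, v, -, rfl⟩, h⟩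
      exact line_eq hpq (h (by simp)) (h (by simp))

lemma pres_of {Ω : Type} {B : Set (Set Ω)} (g : Equiv.Perm Ω) (h : ∀ b ∈ B, g '' b ∈ B)
    (h' : ∀ b ∈ B, g.symm '' b ∈ B) : Pres g B :=
  Subset.antisymm (by rintro _ ⟨b, hb, rfl⟩; exact h b hb) fun b hb =>
    ⟨_, h' b hb, g.image_symm_image b⟩

lemma Pres.symm {Ω : Type} {B : Set (Set Ω)} {g : Equiv.Perm Ω} (h : Pres g B) : Pres g.symm B := by
  refine pres_of _ (fun b hb => ?_) fun b hb => h.subset ⟨b, hb, rfl⟩
  obtain ⟨c, hc, rfl⟩ := (Eq.symm h).subset hb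
  simp only
  rwa [g.symm_image_image]

lemma aff_lines (f : (K × K) ≃ₗ[K] K × K) (c : K × K) (g : Equiv.Perm (K × K))
    (hg : ∀ x, g x = f x + c) : ∀ b ∈ Lines K, g '' b ∈ Lines K := by
  rintro _ ⟨a, v, hv, rfl⟩
  refine ⟨g a, f v, by simpa using hv, ?_⟩
  rw [line, ← range_comp]
  congr 1
  ext1 t
  simp only [Function.comp, hg, map_add, map_smul]
  abel

lemma trans2 (x y : Fin 2 → K × K) (hx : Function.Injective x) (hy : Function.Injective y) :
    ∃ g : Equiv.Perm (K × K), Pres g (Lines K) ∧ ∀ i, g (x i) = y i := by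
  obtain ⟨f, hf⟩ : ∃ f : (K × K) ≃ₗ[K] K × K, f (x 1 - x 0) = y 1 - y 0 := by
    have h1 : x 1 - x 0 ≠ 0 := sub_ne_zero.2 (hx.ne (by simp))
    have h2 : y 1 - y 0 ≠ 0 := sub_ne_zero.2 (hy.ne (by simp))
    obtain ⟨f, hf⟩ := Submodule.exists_linearEquiv_restrict_eq
      ((LinearEquiv.toSpanNonzeroSingleton K _ _ h1).symm.trans
        (LinearEquiv.toSpanNonzeroSingleton K _ _ h2))
    refine ⟨f, ?_⟩
    have := hf (LinearEquiv.toSpanNonzeroSingleton K _ _ h1 1)
    rw [LinearEquiv.trans_apply, LinearEquiv.symm_apply_apply] at this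
    simpa using this.symm
  refine ⟨f.toEquiv.trans (Equiv.addRight (y 0 - f (x 0))), pres_of _
    (aff_lines f _ _ fun _ => rfl) (aff_lines f.symm (-f.symm (y 0 - f (x 0))) _ fun z => ?_), ?_⟩
  · rw [Equiv.symm_apply_eq]
    simp
    abel
  · intro i
    fin_cases i
    · simp
    · rw [map_sub] at hf
      simp only [Fin.mk_one, Equiv.trans_apply, LinearEquiv.coe_toEquiv, Equiv.coe_addRight]
      linear_combination (exp := 1) hf

variable [CharP K 2]

lemma two_zero : (2 : K) = 0 := CharTwo.two_eq_zero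

lemma add_self (p : K × K) : p + p = 0 := Prod.ext (CharTwo.add_self_eq_zero _)
  (CharTwo.add_self_eq_zero _)

lemma steiner_quads [Infinite K] : Steiner 3 (Quads K) := by
  classical
  have hd : ∀ a b c : K × K, b ≠ c → a + b + c ≠ a := fun a b c h e => h (by
    have := add_self b
    linear_combination (exp := 1) this - e)
  refine ⟨?_, ?_, ?_⟩
  · rintro _ ⟨a, b, c, h1, h2, h3, rfl⟩
    have e1 := (hd a b c h3).symm
    have e2 : b ≠ a + b + c := by rw [add_comm a b]; exact (hd b a c h2).symm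
    have e3 : c ≠ a + b + c := by rw [add_comm _ c, ← add_assoc]; exact (hd c a b h1).symm
    rw [encard_insert_of_notMem (by simp [h1, h2, e1]), encard_insert_of_notMem (by simp [h3, e2]),
      encard_pair e3]
    rfl
  · obtain ⟨t, ht⟩ := Infinite.exists_notMem_finset ({0, 1} : Finset K)
    simp only [Finset.mem_insert, Finset.mem_singleton, not_or] at ht
    refine ⟨_, ⟨0, (1, 0), (0, 1), by simp [Prod.ext_iff], by simp [Prod.ext_iff], by simp, rfl⟩,
      _, ⟨0, (t, 0), (0, 1), by simp [Prod.ext_iff, Ne.symm ht.1], by simp [Prod.ext_iff],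
        by simp [ht.1], rfl⟩, fun h => ?_⟩
    have : ((t, 0) : K × K) ∈ ({0, (1, 0), (0, 1), 0 + (1, 0) + (0, 1)} : Set (K × K)) := by
      rw [h]; simp
    simp [Prod.ext_iff, ht.1, ht.2] at this
  · intro s hs
    obtain ⟨p, q, r, h1, h2, h3, rfl⟩ := Finset.card_eq_three.1 hs
    refine ⟨{p, q, r, p + q + r}, ⟨⟨p, q, r, h1, h2, h3, rfl⟩, ?_⟩, ?_⟩
    · intro x hx
      simp only [Finset.coe_insert, Finset.coe_singleton, mem_insert_iff, mem_singleton_iff] at hx ⊢
      tauto
    · rintro _ ⟨⟨a, b, c, -, -, -, rfl⟩, h⟩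
      have hp : p ∈ _ := h (by simp)
      have hq : q ∈ _ := h (by simp)
      have hr : r ∈ _ := h (by simp)
      have k1 : ∀ x y z : K × K, x + (x + y + z) = y + z := fun x y z => by
        rw [← add_assoc, ← add_assoc, add_self, zero_add]
      have k2 : ∀ x y : K × K, x + (x + y) = y := fun x y => by
        rw [← add_assoc, add_self, zero_add]
      simp only [mem_insert_iff, mem_singleton_iff] at hp hq hr
      rcases hp with rfl | rfl | rfl | rfl <;> rcases hq with rfl | rfl | rfl | rfl <;>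
        rcases hr with rfl | rfl | rfl | rfl <;> first
        | contradiction
        | (ext x
           simp only [mem_insert_iff, mem_singleton_iff, add_assoc, add_comm, add_left_comm, k2,
             add_self, add_zero]
           all_goals tauto)

lemma par {g : Equiv.Perm (K × K)} (hg : Pres g (Lines K)) {a b c : K × K}
    (h : det (b - a) (c - a) ≠ 0) : det (g (a + b + c) - g c) (g b - g a) = 0 := by
  have hab : a ≠ b := fun e => h (by simp [e, det])
  have hv : b - a ≠ 0 := sub_ne_zero.2 hab.symm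
  have hcd : c ≠ a + b + c := fun e => hab (by
    have := add_self b
    linear_combination (exp := 1) -e - this)
  obtain ⟨a1, v1, -, h1⟩ := hg.subset ⟨_, ⟨a, b - a, hv, rfl⟩, rfl⟩
  obtain ⟨a2, v2, -, h2⟩ := hg.subset ⟨_, ⟨c, b - a, hv, rfl⟩, rfl⟩
  simp only at h1 h2
  have hd : a + b + c ∈ line c (b - a) := ⟨1, by
    have := add_self a
    simp only [one_smul]
    linear_combination (exp := 1) -this⟩
  have e1 := line_eq (g.injective.ne hab) (h1 ▸ mem_image_of_mem g (left_mem a b))
    (h1 ▸ mem_image_of_mem g (right_mem a b))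
  have e2 := line_eq (g.injective.ne hcd) (h2 ▸ mem_image_of_mem g ⟨0, by simp⟩)
    (h2 ▸ mem_image_of_mem g hd)
  by_contra hne
  have : ∃ x, x ∈ line (g a) (g b - g a) ∧ x ∈ line (g c) (g (a + b + c) - g c) := by
    refine ⟨g c + (-det (g c - g a) (g b - g a) / det (g (a + b + c) - g c) (g b - g a)) •
      (g (a + b + c) - g c), ?_, _, rfl⟩
    rw [mem_line (sub_ne_zero.2 (g.injective.ne hab).symm)]
    generalize g (a + b + c) - g c = w at hne ⊢
    have : ∀ t : K, det (g c + t • w - g a) (g b - g a) =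
        det (g c - g a) (g b - g a) + t * det w (g b - g a) := fun t => by
      simp only [det, Prod.fst_sub, Prod.fst_add, Prod.smul_fst, smul_eq_mul, Prod.snd_sub,
        Prod.snd_add, Prod.smul_snd]
      ring
    rw [this, div_mul_cancel₀ _ hne, add_neg_cancel]
  obtain ⟨x, hx1, hx2⟩ := this
  rw [← e1, ← h1] at hx1
  rw [← e2, ← h2] at hx2
  obtain ⟨y, hy1, rfl⟩ := hx1
  rw [g.injective.mem_set_image, mem_line hv] at hx2
  rw [mem_line hv] at hy1
  apply h
  simp only [det, Prod.fst_sub, Prod.snd_sub] at hx2 hy1 ⊢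
  linear_combination hx2 - hy1

lemma noncol {g : Equiv.Perm (K × K)} (hg : Pres g (Lines K)) {a b c : K × K}
    (h : det (b - a) (c - a) ≠ 0) : g (a + b + c) = g a + g b + g c := by
  have hab : a ≠ b := fun e => h (by simp [e, det])
  have h1 := par hg h
  have h2 := par hg (a := a) (b := c) (c := b) (fun e => h (by
    simp only [det] at e ⊢; linear_combination -e))
  rw [add_right_comm] at h2
  have h3 : det (g c - g a) (g b - g a) ≠ 0 := fun e => by
    rw [← mem_line (sub_ne_zero.2 (g.injective.ne hab).symm)] at e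
    obtain ⟨a1, v1, -, e1⟩ := hg.subset ⟨_, ⟨a, b - a, sub_ne_zero.2 hab.symm, rfl⟩, rfl⟩
    simp only at e1
    rw [← line_eq (g.injective.ne hab) (e1 ▸ mem_image_of_mem g (left_mem a b))
      (e1 ▸ mem_image_of_mem g (right_mem a b)), ← e1, g.injective.mem_set_image,
      mem_line (sub_ne_zero.2 hab.symm)] at e
    apply h
    simp only [det] at e ⊢
    linear_combination -e
  have h4 : (2 : K) = 0 := two_zero
  simp only [det, Prod.fst_sub, Prod.snd_sub] at h1 h2 h3
  refine Prod.ext (mul_left_cancel₀ h3 ?_) (mul_left_cancel₀ h3 ?_)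
  · simp only [Prod.fst_add]
    linear_combination ((g c).1 - (g a).1) * h1 - ((g b).1 - (g a).1) * h2 - (g a).1 *
      (((g c).1 - (g a).1) * ((g b).2 - (g a).2) - ((g c).2 - (g a).2) * ((g b).1 - (g a).1)) * h4
  · simp only [Prod.snd_add]
    linear_combination ((g c).2 - (g a).2) * h1 - ((g b).2 - (g a).2) * h2 - (g a).2 *
      (((g c).1 - (g a).1) * ((g b).2 - (g a).2) - ((g c).2 - (g a).2) * ((g b).1 - (g a).1)) * h4

lemma additive {g : Equiv.Perm (K × K)} (hg : Pres g (Lines K)) {a b : K × K} (hab : a ≠ b)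
    (c : K × K) : g (a + b + c) = g a + g b + g c := by
  by_cases h : det (b - a) (c - a) = 0
  · obtain ⟨w, hw⟩ : ∃ w, det (b - a) w ≠ 0 := by
      by_contra hc
      push Not at hc
      have h1 := hc (1, 0)
      have h2 := hc (0, 1)
      simp only [det, Prod.fst_sub, Prod.snd_sub] at h1 h2
      exact hab (Prod.ext (by linear_combination -h2) (by linear_combination h1))
    have h4 : (2 : K) = 0 := two_zero
    have e1 := noncol hg (a := a) (b := b) (c := a + w) (by simpa using hw)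
    have e2 := noncol hg (a := a + w) (b := a + b + (a + w)) (c := c) (fun e => hw (by
      simp only [det, Prod.fst_sub, Prod.snd_sub, Prod.fst_add, Prod.snd_add] at e h ⊢
      linear_combination h - e + (a.1 * (c.2 - a.2 - w.2) - a.2 * (c.1 - a.1 - w.1)) * h4))
    have k : ∀ x y : K × K, x + (y + x) = y := fun x y => by
      rw [add_comm y, ← add_assoc, add_self, zero_add]
    rw [k, e1, k] at e2
    exact e2
  · exact noncol hg h

lemma pres_quads {g : Equiv.Perm (K × K)} (hg : Pres g (Lines K)) :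
    ∀ b ∈ Quads K, g '' b ∈ Quads K := by
  rintro _ ⟨a, b, c, h1, h2, h3, rfl⟩
  refine ⟨g a, g b, g c, g.injective.ne h1, g.injective.ne h2, g.injective.ne h3, ?_⟩
  simp only [image_insert_eq, image_singleton, additive hg h1]

end

theorem result : ∃ (k l : ℕ) (Ω : Type) (B C : Set (Set Ω)), 2 ≤ k ∧ 2 ≤ l ∧ k ≠ l ∧
    Countable Ω ∧ Infinite Ω ∧ Steiner k B ∧ Steiner l C ∧
    (∀ x y : Fin k → Ω, Function.Injective x → Function.Injective y →
      ∃ g : Equiv.Perm Ω, Pres g B ∧ ∀ i, g (x i) = y i) ∧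
    ∀ g : Equiv.Perm Ω, Pres g B → Pres g C := by
  let K := AlgebraicClosure (ZMod 2)
  have hc : Countable K := by
    rw [← Cardinal.mk_le_aleph0_iff]
    refine (Algebra.IsAlgebraic.cardinalMk_le_max (ZMod 2) K).trans ?_
    simp
  exact ⟨2, 3, K × K, Lines K, Quads K, le_rfl, by omega, by omega, inferInstance, inferInstance,
    steiner_lines, steiner_quads, trans2,
    fun g hg => pres_of g (pres_quads hg) (pres_quads hg.symm)⟩

end Pool.Agent.Results.MP_19fe04_lc.TwoSystems
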